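import Pool.Agent.Helper68.LM2.St

/-!
# Project LM2, module FAR, part 1: squares and the good function
-/

set_option autoImplicit false

open MeasureTheory Set Filter Topology
open scoped ENNReal RealInnerProductSpace

namespace Pool.Agent.Helper33.LM2

open Pool.Agent.Helper68.LM2 Pool.Agent.Helper68.LM

/-- the interval number `i` of level `q` -/
theorem fl_set (q i : ℤ) : {x : ℝ | ⌊x / (2 : ℝ) ^ q⌋ = i} = Ico ((2 : ℝ) ^ q * i) ((2 : ℝ) ^ q * i + (2 : ℝ) ^ q) := by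
  ext x
  have h2 : (0 : ℝ) < (2 : ℝ) ^ q := by positivity
  rw [Set.mem_ofPred_eq, Int.floor_eq_iff, le_div_iff₀ h2, div_lt_iff₀ h2, mem_Ico]
  constructor
  · rintro ⟨h, h'⟩; constructor <;> nlinarith
  · rintro ⟨h, h'⟩; constructor <;> nlinarith

theorem sqr_eq (q i j : ℤ) : sqr q i j =
    Ico ((2 : ℝ) ^ q * i) ((2 : ℝ) ^ q * i + (2 : ℝ) ^ q) ×ˢ Ico ((2 : ℝ) ^ q * j) ((2 : ℝ) ^ q * j + (2 : ℝ) ^ q) := by
  rw [← fl_set, ← fl_set]
  ext z
  simp only [sqr, Set.mem_ofPred_eq, mem_prod]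

theorem meas_sqr (q i j : ℤ) : MeasurableSet (sqr q i j) := by
  rw [sqr_eq]; exact measurableSet_Ico.prod measurableSet_Ico

theorem vol_sqr (q i j : ℤ) : volume (sqr q i j) = ENNReal.ofReal ((4 : ℝ) ^ q) := by
  rw [sqr_eq, Measure.volume_eq_prod, Measure.prod_prod, Real.volume_Ico, Real.volume_Ico,
    add_sub_cancel_left, add_sub_cancel_left, ← ENNReal.ofReal_mul (by positivity), ← mul_zpow]
  norm_num

theorem dist_sqr {q i j : ℤ} {x z : ℝ × ℝ} (hx : x ∈ sqr q i j) (hz : z ∈ sqr q i j) : ‖x - z‖ ≤ (2 : ℝ) ^ q := by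
  rw [sqr_eq, mem_prod, mem_Ico, mem_Ico] at hx hz
  rw [Prod.norm_def, Real.norm_eq_abs, Real.norm_eq_abs, Prod.fst_sub, Prod.snd_sub]
  refine max_le ?_ ?_
  · rw [abs_le]; constructor <;> linarith [hx.1.1, hx.1.2, hz.1.1, hz.1.2]
  · rw [abs_le]; constructor <;> linarith [hx.2.1, hx.2.2, hz.2.1, hz.2.2]

/-- The data of the decomposition. -/
structure Dat (F : ℝ × ℝ → ℝ) (lam : ℝ) (I : Set (ℤ × ℤ × ℤ)) : Prop where
  br : BR F
  itg : Integrable F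
  pos : ∀ z, 0 ≤ F z
  lp : 0 < lam
  dis : I.PairwiseDisjoint (fun s => sqr s.1 s.2.1 s.2.2)
  lo : ∀ s ∈ I, lam * (4 : ℝ) ^ s.1 < ∫ z in sqr s.1 s.2.1 s.2.2, F z
  hi : ∀ s ∈ I, ∫ z in sqr s.1 s.2.1 s.2.2, F z ≤ 4 * lam * (4 : ℝ) ^ s.1
  ae : ∀ᵐ z, (∀ s ∈ I, z ∉ sqr s.1 s.2.1 s.2.2) → F z ≤ lam

variable {F : ℝ × ℝ → ℝ} {lam : ℝ} {I : Set (ℤ × ℤ × ℤ)}

/-- The selected square of the index `s`. -/
def Sq (I : Set (ℤ × ℤ × ℤ)) (s : I) : Set (ℝ × ℝ) := sqr s.1.1 s.1.2.1 s.1.2.2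

theorem meas_Sq (s : I) : MeasurableSet (Sq I s) := meas_sqr _ _ _

theorem vol_Sq (s : I) : volume (Sq I s) = ENNReal.ofReal ((4 : ℝ) ^ s.1.1) := vol_sqr _ _ _

theorem Dat.disj (hD : Dat F lam I) : Pairwise (Function.onFun Disjoint (Sq I)) := by
  intro s t hst
  exact hD.dis s.2 t.2 (fun h => hst (Subtype.ext h))

theorem Dat.eq_of (hD : Dat F lam I) {s t : I} {z : ℝ × ℝ} (h1 : z ∈ Sq I s) (h2 : z ∈ Sq I t) : s = t := by
  by_contra h
  exact Set.disjoint_left.1 (hD.disj h) h1 h2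

theorem Dat.side (hD : Dat F lam I) (s : I) : (2 : ℝ) ^ s.1.1 ≤ 1 + (∫ z, F z) / lam := by
  have h1 : lam * (4 : ℝ) ^ s.1.1 ≤ ∫ z, F z :=
    (hD.lo s.1 s.2).le.trans (setIntegral_le_integral hD.itg (ae_of_all _ hD.pos))
  have h2 : ((2 : ℝ) ^ s.1.1) ^ 2 = (4 : ℝ) ^ s.1.1 := by
    rw [← zpow_natCast, ← zpow_mul, mul_comm, zpow_mul]
    norm_num
  have h3 : ((2 : ℝ) ^ s.1.1) ^ 2 ≤ (∫ z, F z) / lam := by
    rw [h2, le_div_iff₀ hD.lp]; linarith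
  nlinarith [sq_nonneg ((2 : ℝ) ^ s.1.1 - 1), (by positivity : (0 : ℝ) < (2 : ℝ) ^ s.1.1)]

/-- The selected squares are bounded uniformly. -/
theorem Dat.bdd (hD : Dat F lam I) : ∃ L : ℝ, ∀ (s : I) (z : ℝ × ℝ), z ∈ Sq I s → ‖z‖ ≤ L := by
  obtain ⟨K, hK1, hK2⟩ := hD.br.2
  refine ⟨K + (1 + (∫ z, F z) / lam), fun s x hx => ?_⟩
  obtain ⟨z, hz1, hz2⟩ : ∃ z ∈ Sq I s, F z ≠ 0 := by
    by_contra hcon
    push Not at hcon
    have h3 : ∫ z in Sq I s, F z = 0 := by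
      rw [setIntegral_congr_fun (meas_Sq s) (g := fun _ => (0 : ℝ)) (fun z hz => hcon z hz)]
      simp
    have h4 := hD.lo s.1 s.2
    have h5 : ∫ z in sqr s.1.1 s.1.2.1 s.1.2.2, F z = 0 := h3
    rw [h5] at h4
    have h6 : 0 < lam * (4 : ℝ) ^ s.1.1 := mul_pos hD.lp (by positivity)
    linarith
  have h5 : ‖z‖ ≤ K := by
    by_contra hcon
    push Not at hcon
    exact hz2 (hK2 z hcon)
  have h6 := dist_sqr hx hz1
  have h7 := hD.side s
  calc ‖x‖ = ‖z + (x - z)‖ := by congr 1; abel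
    _ ≤ ‖z‖ + ‖x - z‖ := norm_add_le _ _
    _ ≤ _ := by linarith

theorem Dat.sum_vol (hD : Dat F lam I) :
    ∑' s : I, ENNReal.ofReal ((4 : ℝ) ^ s.1.1) ≤ ENNReal.ofReal lam⁻¹ * ∫⁻ z, ENNReal.ofReal (F z) := by
  have h1 : ∀ s : I, ENNReal.ofReal ((4 : ℝ) ^ s.1.1) ≤
      ENNReal.ofReal lam⁻¹ * ∫⁻ z in Sq I s, ENNReal.ofReal (F z) := by
    intro s
    rw [← ofReal_integral_eq_lintegral_ofReal hD.itg.integrableOn (ae_of_all _ hD.pos),
      ← ENNReal.ofReal_mul (inv_nonneg.2 hD.lp.le)]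
    refine ENNReal.ofReal_le_ofReal ?_
    have h2 := hD.lo s.1 s.2
    have h3 : ∫ z in Sq I s, F z = ∫ z in sqr s.1.1 s.1.2.1 s.1.2.2, F z := rfl
    rw [h3, inv_mul_eq_div, le_div_iff₀ hD.lp]
    linarith
  calc ∑' s : I, ENNReal.ofReal ((4 : ℝ) ^ s.1.1) ≤
        ∑' s : I, ENNReal.ofReal lam⁻¹ * ∫⁻ z in Sq I s, ENNReal.ofReal (F z) := ENNReal.tsum_le_tsum h1
    _ = ENNReal.ofReal lam⁻¹ * ∑' s : I, ∫⁻ z in Sq I s, ENNReal.ofReal (F z) := ENNReal.tsum_mul_left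
    _ = ENNReal.ofReal lam⁻¹ * ∫⁻ z in ⋃ s : I, Sq I s, ENNReal.ofReal (F z) := by
        rw [lintegral_iUnion (fun s => meas_Sq s) hD.disj]
    _ ≤ _ := mul_le_mul_right (setLIntegral_le_lintegral _ _) _

/-- The good function: averages over the selected squares. -/
theorem good (hD : Dat F lam I) (f : ℝ × ℝ → ℝ) (hf : BR f) (hfi : Integrable f) (h0 : ∀ z, 0 ≤ f z)
    (hfF : ∀ z, f z ≤ F z) (hfl : ∀ z, F z ≤ lam → f z = 0) :
    ∃ G : ℝ × ℝ → ℝ, BR G ∧ (∀ z, 0 ≤ G z ∧ G z ≤ 4 * lam) ∧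
      (∫⁻ z, ENNReal.ofReal (G z) ≤ ∫⁻ z, ENNReal.ofReal (f z)) ∧
      (∀ s : I, ∫ z, (Sq I s).indicator (fun z => f z - G z) z = 0) ∧
      (∀ᵐ z, (∀ s : I, z ∉ Sq I s) → f z - G z = 0) := by
  classical
  obtain ⟨L, hL⟩ := hD.bdd
  obtain ⟨a, ha⟩ : ∃ a : I → ℝ, a = fun s => ((4 : ℝ) ^ s.1.1)⁻¹ * ∫ z in Sq I s, f z := ⟨_, rfl⟩
  have ha4 : ∀ s, (4 : ℝ) ^ s.1.1 * a s = ∫ z in Sq I s, f z := by
    intro s; rw [ha]; dsimp only
    have : (4 : ℝ) ^ s.1.1 ≠ 0 := by positivity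
    field_simp
  have ha0 : ∀ s, 0 ≤ a s := by
    intro s; rw [ha]; dsimp only
    have := integral_nonneg (μ := volume.restrict (Sq I s)) (f := f) (fun x => h0 x)
    positivity
  have hal : ∀ s, a s ≤ 4 * lam := by
    intro s
    have h1 : (4 : ℝ) ^ s.1.1 * a s ≤ (4 : ℝ) ^ s.1.1 * (4 * lam) := by
      rw [ha4]
      calc ∫ z in Sq I s, f z ≤ ∫ z in Sq I s, F z :=
            setIntegral_mono hfi.integrableOn hD.itg.integrableOn hfF
        _ ≤ 4 * lam * (4 : ℝ) ^ s.1.1 := hD.hi s.1 s.2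
        _ = _ := by ring
    exact le_of_mul_le_mul_left h1 (by positivity)
  obtain ⟨T, hT⟩ : ∃ T : ℝ × ℝ → ℝ≥0∞, T = fun x => ∑' s : I, (Sq I s).indicator (fun _ => ENNReal.ofReal (a s)) x :=
    ⟨_, rfl⟩
  have hTm : Measurable T := by
    rw [hT]
    exact Measurable.tsum fun s => measurable_const.indicator (meas_Sq s)
  have hTx : ∀ s x, x ∈ Sq I s → T x = ENNReal.ofReal (a s) := by
    intro s x hx
    rw [hT]; dsimp only
    rw [tsum_eq_single s, indicator_of_mem hx]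
    intro t ht
    exact indicator_of_notMem (fun hx' => ht (hD.eq_of hx' hx)) _
  have hTn : ∀ x, (∀ s : I, x ∉ Sq I s) → T x = 0 := by
    intro x hx
    rw [hT]; dsimp only
    rw [ENNReal.tsum_eq_zero]
    intro s
    exact indicator_of_notMem (hx s) _
  obtain ⟨G, hG⟩ : ∃ G : ℝ × ℝ → ℝ, G = fun x => (T x).toReal := ⟨_, rfl⟩
  have hGQ : ∀ s x, x ∈ Sq I s → G x = a s := by
    intro s x hx
    rw [hG]; dsimp only
    rw [hTx s x hx, ENNReal.toReal_ofReal (ha0 s)]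
  have hGU : ∀ x, (∀ s : I, x ∉ Sq I s) → G x = 0 := by
    intro x hx; rw [hG]; dsimp only; rw [hTn x hx]; simp
  have hb : ∀ x, 0 ≤ G x ∧ G x ≤ 4 * lam := by
    intro x
    by_cases hx : ∃ s : I, x ∈ Sq I s
    · obtain ⟨s, hs⟩ := hx
      rw [hGQ s x hs]; exact ⟨ha0 s, hal s⟩
    · push Not at hx
      rw [hGU x hx]
      exact ⟨le_rfl, by have := hD.lp; positivity⟩
  have hLL : 0 ≤ |L| := abs_nonneg L
  have hGB : BR G := by
    refine ⟨by rw [hG]; exact hTm.ennreal_toReal, 4 * lam + |L|, fun x => ?_, fun x hx => ?_⟩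
    · rw [abs_of_nonneg (hb x).1]; linarith [(hb x).2]
    · refine hGU x fun s hs => ?_
      have := hL s x hs
      linarith [le_abs_self L, hD.lp]
  have hGi : ∀ s : I, IntegrableOn G (Sq I s) := by
    intro s
    have h1 : IntegrableOn (fun _ : ℝ × ℝ => a s) (Sq I s) :=
      integrableOn_const (hs := by rw [vol_Sq]; exact ENNReal.ofReal_ne_top) (hC := by simp)
    exact h1.congr_fun (fun x hx => (hGQ s x hx).symm) (meas_Sq s)
  have hint : ∀ s : I, ∫⁻ x in Sq I s, ENNReal.ofReal (G x) = ∫⁻ x in Sq I s, ENNReal.ofReal (f x) := by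
    intro s
    rw [setLIntegral_congr_fun (meas_Sq s) (g := fun _ => ENNReal.ofReal (a s)) (fun x hx => by rw [hGQ s x hx]),
      setLIntegral_const, vol_Sq, ← ENNReal.ofReal_mul (ha0 s),
      ← ofReal_integral_eq_lintegral_ofReal hfi.integrableOn (ae_of_all _ h0), ← ha4 s, mul_comm]
  refine ⟨G, hGB, hb, ?_, fun s => ?_, ?_⟩
  · have hU : MeasurableSet (⋃ s : I, Sq I s) := MeasurableSet.iUnion (fun s => meas_Sq s)
    rw [← lintegral_add_compl _ hU]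
    have h1 : ∫⁻ x in (⋃ s : I, Sq I s)ᶜ, ENNReal.ofReal (G x) = 0 := by
      rw [setLIntegral_congr_fun hU.compl (g := fun _ => 0) (fun x hx => by
        rw [hGU x (fun s hs => hx (mem_iUnion.2 ⟨s, hs⟩))]; simp)]
      simp
    rw [h1, add_zero, lintegral_iUnion (fun s => meas_Sq s) hD.disj]
    simp only [hint]
    rw [← lintegral_iUnion (fun s => meas_Sq s) hD.disj]
    exact setLIntegral_le_lintegral _ _
  · rw [integral_indicator (meas_Sq s), integral_sub hfi.integrableOn (hGi s),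
      setIntegral_congr_fun (meas_Sq s) (f := G) (g := fun _ => a s) (fun x hx => hGQ s x hx), setIntegral_const,
      Measure.real, vol_Sq, ENNReal.toReal_ofReal (by positivity), smul_eq_mul, ha4, sub_self]
  · filter_upwards [hD.ae] with z hz hz'
    rw [hfl z (hz (fun s hs => hz' ⟨s, hs⟩)), hGU z hz', sub_self]

end Pool.Agent.Helper33.LM2
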