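import Pool.Agent.Helper33.LM2.FAR1

/-!
# Project LM2, module FAR, part 2: the operators and the bad functions
-/

set_option autoImplicit false

open MeasureTheory Set Filter Topology
open scoped ENNReal RealInnerProductSpace

namespace Pool.Agent.Helper33.LM2

open Pool.Agent.Helper68.LM2 Pool.Agent.Helper68.LM

theorem br_zero : BR (fun _ => 0) := ⟨measurable_const, 0, by simp, by simp⟩

section Op

variable {τ : ℕ → ℝ} {m₀ : ℕ}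

theorem vc_zero (hRHO : StRHO) (hτ : Seq τ m₀) (k : ℤ) (n : ℕ) (z : ℝ × ℝ) :
    Vc τ m₀ k n (fun _ => 0) z = 0 := by
  obtain ⟨-, -, -, -, -, -, -, -, h9, -⟩ := hRHO τ m₀ hτ
  have h := (h9 n k (fun _ => 0) (fun _ => 0) z br_zero br_zero).1
  simp only [add_zero] at h
  linarith

theorem br_sum (hEB : StEB) {ι : Type} (A : Finset ι) (b : ι → ℝ × ℝ → ℝ) (hb : ∀ i, BR (b i)) :
    BR (fun z => ∑ i ∈ A, b i z) := by
  classical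
  induction A using Finset.induction_on with
  | empty => simpa using br_zero
  | insert i A hi ih =>
    simp only [Finset.sum_insert hi]
    exact (hEB.2.1 _ _ (hb i) ih).1

theorem vc_sum (hEB : StEB) (hRHO : StRHO) (hτ : Seq τ m₀) (k : ℤ) (n : ℕ) {ι : Type} (A : Finset ι)
    (b : ι → ℝ × ℝ → ℝ) (hb : ∀ i, BR (b i)) (z : ℝ × ℝ) :
    Vc τ m₀ k n (fun z => ∑ i ∈ A, b i z) z = ∑ i ∈ A, Vc τ m₀ k n (b i) z := by
  classical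
  obtain ⟨-, -, -, -, -, -, -, -, h9, -⟩ := hRHO τ m₀ hτ
  induction A using Finset.induction_on with
  | empty => simpa using vc_zero hRHO hτ k n z
  | insert i A hi ih =>
    simp only [Finset.sum_insert hi]
    rw [← ih]
    exact (h9 n k _ _ z (hb i) (br_sum hEB A b hb)).1

theorem vc_l1 (hEB : StEB) (hRHO : StRHO) (hτ : Seq τ m₀) (k : ℤ) (n : ℕ) (f : ℝ × ℝ → ℝ) (hf : BR f) :
    ∫⁻ z, ‖Vc τ m₀ k n f z‖ₑ ≤ ENNReal.ofReal (4 * (τ n - τ (n + 1))) * ∫⁻ z, ‖f z‖ₑ := by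
  obtain ⟨-, -, -, h4, -⟩ := hRHO τ m₀ hτ
  obtain ⟨-, e2, -, e4, -, -, -, e8, -⟩ := hEB
  have h1 := (e4 (k - (m₀ : ℤ) - (n : ℤ) + 2) f hf).1
  have h2 := (e4 (k - (m₀ : ℤ) + 2) f hf).1
  have h3 := h4 n k 1 (fun z => E2 (k - (m₀ : ℤ) - (n : ℤ) + 2) f z - E2 (k - (m₀ : ℤ) + 2) f z) le_rfl
    (e2 _ _ h1 h2).2
  simp only [ENNReal.rpow_one, Real.rpow_one] at h3
  have hpos : 0 ≤ τ n - τ (n + 1) := by linarith [hτ.1 (Nat.lt_succ_self n)]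
  calc ∫⁻ z, ‖Vc τ m₀ k n f z‖ₑ ≤ ENNReal.ofReal (2 * (τ n - τ (n + 1))) *
        ∫⁻ z, ‖E2 (k - (m₀ : ℤ) - (n : ℤ) + 2) f z - E2 (k - (m₀ : ℤ) + 2) f z‖ₑ := h3
    _ ≤ ENNReal.ofReal (2 * (τ n - τ (n + 1))) *
        ∫⁻ z, (‖E2 (k - (m₀ : ℤ) - (n : ℤ) + 2) f z‖ₑ + ‖E2 (k - (m₀ : ℤ) + 2) f z‖ₑ) := by
        refine mul_le_mul_right (lintegral_mono fun z => ?_) _
        exact enorm_sub_le
    _ = ENNReal.ofReal (2 * (τ n - τ (n + 1))) *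
        ((∫⁻ z, ‖E2 (k - (m₀ : ℤ) - (n : ℤ) + 2) f z‖ₑ) + ∫⁻ z, ‖E2 (k - (m₀ : ℤ) + 2) f z‖ₑ) := by
        rw [lintegral_add_left h1.1.enorm]
    _ ≤ ENNReal.ofReal (2 * (τ n - τ (n + 1))) * ((∫⁻ z, ‖f z‖ₑ) + ∫⁻ z, ‖f z‖ₑ) :=
        mul_le_mul_right (add_le_add (e8 _ f hf) (e8 _ f hf)) _
    _ = _ := by
        have h5 : ENNReal.ofReal (4 * (τ n - τ (n + 1))) = ENNReal.ofReal (2 * (τ n - τ (n + 1))) * 2 := by
          rw [show (4 : ℝ) * (τ n - τ (n + 1)) = (2 * (τ n - τ (n + 1))) * 2 by ring,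
            ENNReal.ofReal_mul (q := 2) (by positivity)]
          norm_num
        rw [h5]
        ring

end Op

section Bad

variable {τ : ℕ → ℝ} {m₀ : ℕ} {F : ℝ × ℝ → ℝ} {lam : ℝ} {I : Set (ℤ × ℤ × ℤ)}

theorem lint_ind (s : Set (ℝ × ℝ)) (hs : MeasurableSet s) (b : ℝ × ℝ → ℝ) :
    ∫⁻ z, ‖s.indicator b z‖ₑ = ∫⁻ z in s, ‖b z‖ₑ := by
  rw [← lintegral_indicator hs]
  congr 1
  funext z
  by_cases hz : z ∈ s
  · rw [indicator_of_mem hz, indicator_of_mem hz]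
  · rw [indicator_of_notMem hz, indicator_of_notMem hz, enorm_zero]

/-- The tail of the decomposition. -/
theorem rest_le (hD : Dat F lam I) (b : ℝ × ℝ → ℝ) (hae : ∀ᵐ z, (∀ s : I, z ∉ Sq I s) → b z = 0) (A : Finset I) :
    ∫⁻ z, ‖((⋃ s ∈ A, Sq I s)ᶜ).indicator b z‖ₑ ≤ ∑' s : {x : I // x ∉ A}, ∫⁻ z in Sq I s.1, ‖b z‖ₑ := by
  have hm : MeasurableSet (⋃ s ∈ A, Sq I s) := Finset.measurableSet_biUnion A (fun s _ => meas_Sq s)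
  rw [← lintegral_iUnion (fun s : {x : I // x ∉ A} => meas_Sq s.1)
    (fun s t hst => hD.disj (fun h => hst (Subtype.ext h))), ← lintegral_indicator
    (MeasurableSet.iUnion fun s : {x : I // x ∉ A} => meas_Sq s.1)]
  refine lintegral_mono_ae ?_
  filter_upwards [hae] with z hz
  by_cases h1 : z ∈ (⋃ s ∈ A, Sq I s)ᶜ
  · by_cases h2 : ∃ s : I, z ∈ Sq I s
    · obtain ⟨s, hs⟩ := h2
      have hsA : s ∉ A := fun h => h1 (mem_iUnion₂.2 ⟨s, h, hs⟩)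
      rw [indicator_of_mem h1, indicator_of_mem (mem_iUnion.2 ⟨⟨s, hsA⟩, hs⟩)]
    · push Not at h2
      rw [indicator_of_mem h1, hz h2, enorm_zero]
      exact zero_le
  · rw [indicator_of_notMem h1, enorm_zero]
    exact zero_le

theorem bad_k (hEB : StEB) (hRHO : StRHO) (hτ : Seq τ m₀) (hD : Dat F lam I) (b : ℝ × ℝ → ℝ) (hb : BR b)
    (hae : ∀ᵐ z, (∀ s : I, z ∉ Sq I s) → b z = 0) (k : ℤ) (n : ℕ) (P : ℝ × ℝ) (Z : Set (ℝ × ℝ))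
    (hZm : MeasurableSet Z)
    (hZ : ∀ s : I, k ≤ s.1.1 → ∀ z ∈ Z, Vc τ m₀ k n ((Sq I s).indicator b) (z - (2 : ℝ) ^ k • P) = 0) :
    ∫⁻ z in Z, ‖Vc τ m₀ k n b (z - (2 : ℝ) ^ k • P)‖ₑ ≤
      ∑' s : I, (if s.1.1 < k then ∫⁻ z, ‖Vc τ m₀ k n ((Sq I s).indicator b) z‖ₑ else 0) := by
  classical
  have hbr := hEB.2.2.1
  have hI : Integrable b := (hEB.1 b hb).2
  obtain ⟨-, -, -, -, -, -, -, h8, h9, -⟩ := hRHO τ m₀ hτ
  obtain ⟨bs, hbs⟩ : ∃ bs : I → ℝ × ℝ → ℝ, bs = fun s => (Sq I s).indicator b := ⟨_, rfl⟩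
  have hbsB : ∀ s, BR (bs s) := fun s => by rw [hbs]; exact hbr b _ hb (meas_Sq s)
  have hZ' : ∀ s : I, k ≤ s.1.1 → ∀ z ∈ Z, Vc τ m₀ k n (bs s) (z - (2 : ℝ) ^ k • P) = 0 := by
    rw [hbs]; exact hZ
  obtain ⟨t, ht⟩ : ∃ t : I → ℝ≥0∞, t = fun s =>
    if s.1.1 < k then ∫⁻ z, ‖Vc τ m₀ k n (bs s) z‖ₑ else 0 := ⟨_, rfl⟩
  have hgoal : ∑' s : I, (if s.1.1 < k then ∫⁻ z, ‖Vc τ m₀ k n ((Sq I s).indicator b) z‖ₑ else 0) = ∑' s, t s := by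
    rw [ht, hbs]
  rw [hgoal]
  have hvm : ∀ f : ℝ × ℝ → ℝ, BR f → Measurable (Vc τ m₀ k n f) := fun f hf => (h8 n k f hf).2.1
  have htr : ∀ f : ℝ × ℝ → ℝ, ∫⁻ z, ‖Vc τ m₀ k n f (z - (2 : ℝ) ^ k • P)‖ₑ = ∫⁻ z, ‖Vc τ m₀ k n f z‖ₑ := by
    intro f
    exact lintegral_sub_right_eq_self (fun z => ‖Vc τ m₀ k n f z‖ₑ) _
  have htm : ∀ f : ℝ × ℝ → ℝ, BR f → Measurable (fun z => ‖Vc τ m₀ k n f (z - (2 : ℝ) ^ k • P)‖ₑ) := by
    intro f hf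
    exact ((hvm f hf).comp (measurable_id.sub_const _)).enorm
  -- the estimate for a finite set of squares
  have key : ∀ A : Finset I, ∫⁻ z in Z, ‖Vc τ m₀ k n b (z - (2 : ℝ) ^ k • P)‖ₑ ≤
      (∑' s, t s) + ENNReal.ofReal (4 * (τ n - τ (n + 1))) *
        ∑' s : {x : I // x ∉ A}, ∫⁻ z in Sq I s.1, ‖b z‖ₑ := by
    intro A
    obtain ⟨rA, hrA⟩ : ∃ rA : ℝ × ℝ → ℝ, rA = ((⋃ s ∈ A, Sq I s)ᶜ).indicator b := ⟨_, rfl⟩
    have hm : MeasurableSet (⋃ s ∈ A, Sq I s) := Finset.measurableSet_biUnion A (fun s _ => meas_Sq s)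
    have hrB : BR rA := by rw [hrA]; exact hbr b _ hb hm.compl
    have hdec : b = fun z => (∑ s ∈ A, bs s z) + rA z := by
      funext z
      rw [hbs, hrA]
      dsimp only
      by_cases hz : z ∈ ⋃ s ∈ A, Sq I s
      · obtain ⟨s, hsA, hs⟩ := mem_iUnion₂.1 hz
        rw [indicator_of_notMem (show z ∉ (⋃ s ∈ A, Sq I s)ᶜ from fun h => h hz), add_zero, Finset.sum_eq_single s, indicator_of_mem hs]
        · intro s' _ hs'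
          exact indicator_of_notMem (fun h => hs' (hD.eq_of h hs)) _
        · intro h; exact absurd hsA h
      · rw [indicator_of_mem (show z ∈ (⋃ s ∈ A, Sq I s)ᶜ from hz), Finset.sum_eq_zero, zero_add]
        intro s hsA
        exact indicator_of_notMem (fun h => hz (mem_iUnion₂.2 ⟨s, hsA, h⟩)) _
    have hpt : ∀ z, Vc τ m₀ k n b z = (∑ s ∈ A, Vc τ m₀ k n (bs s) z) + Vc τ m₀ k n rA z := by
      intro z
      conv_lhs => rw [hdec]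
      rw [(h9 n k _ _ z (br_sum hEB A bs hbsB) hrB).1, vc_sum hEB hRHO hτ k n A bs hbsB z]
    calc ∫⁻ z in Z, ‖Vc τ m₀ k n b (z - (2 : ℝ) ^ k • P)‖ₑ
        ≤ ∫⁻ z in Z, ((∑ s ∈ A, ‖Vc τ m₀ k n (bs s) (z - (2 : ℝ) ^ k • P)‖ₑ) +
            ‖Vc τ m₀ k n rA (z - (2 : ℝ) ^ k • P)‖ₑ) := by
          refine lintegral_mono fun z => ?_
          rw [hpt]
          exact (enorm_add_le _ _).trans (add_le_add (enorm_sum_le _ _) le_rfl)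
      _ = (∑ s ∈ A, ∫⁻ z in Z, ‖Vc τ m₀ k n (bs s) (z - (2 : ℝ) ^ k • P)‖ₑ) +
            ∫⁻ z in Z, ‖Vc τ m₀ k n rA (z - (2 : ℝ) ^ k • P)‖ₑ := by
          rw [lintegral_add_right _ (htm rA hrB), lintegral_finsetSum _ (fun s _ => htm (bs s) (hbsB s))]
      _ ≤ (∑ s ∈ A, t s) + ∫⁻ z, ‖rA z‖ₑ * ENNReal.ofReal (4 * (τ n - τ (n + 1))) := by
          refine add_le_add (Finset.sum_le_sum fun s _ => ?_) ?_
          · rw [ht]; dsimp only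
            split_ifs with h
            · rw [← htr (bs s)]; exact setLIntegral_le_lintegral _ _
            · rw [setLIntegral_congr_fun hZm (g := fun _ => 0) (fun z hz => by
                rw [hZ' s (not_lt.1 h) z hz, enorm_zero])]
              simp
          · rw [lintegral_mul_const _ hrB.1.enorm, mul_comm]
            refine (setLIntegral_le_lintegral _ _).trans ?_
            rw [htr rA]
            exact vc_l1 hEB hRHO hτ k n rA hrB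
      _ ≤ _ := by
          refine add_le_add (ENNReal.sum_le_tsum A) ?_
          rw [lintegral_mul_const _ hrB.1.enorm, mul_comm]
          refine mul_le_mul_right ?_ _
          rw [hrA]
          exact rest_le hD b hae A
  -- limit
  have hfin : ∑' s : I, ∫⁻ z in Sq I s, ‖b z‖ₑ ≠ ⊤ := by
    rw [← lintegral_iUnion (fun s : I => meas_Sq s) hD.disj]
    exact ((setLIntegral_le_lintegral _ _).trans_lt hI.2).ne
  have hlim := ENNReal.tendsto_tsum_compl_atTop_zero hfin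
  have h1 := (tendsto_const_nhds (x := ∑' s, t s)).add
    (ENNReal.Tendsto.const_mul (a := ENNReal.ofReal (4 * (τ n - τ (n + 1)))) hlim (Or.inr ENNReal.ofReal_ne_top))
  rw [mul_zero, add_zero] at h1
  exact ge_of_tendsto' h1 key

/-- The estimate for a bad function. -/
theorem bad_all (hEB : StEB) (hRHO : StRHO) (hBAD : StBAD) (hτ : Seq τ m₀) (hD : Dat F lam I) (b : ℝ × ℝ → ℝ)
    (hb : BR b) (hae : ∀ᵐ z, (∀ s : I, z ∉ Sq I s) → b z = 0) (h0 : ∀ s : I, ∫ z, (Sq I s).indicator b z = 0)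
    (n : ℕ) (P : ℝ × ℝ) (Z : Set (ℝ × ℝ)) (hZm : MeasurableSet Z)
    (hZ : ∀ (s : I) (k : ℤ), k ≤ s.1.1 → ∀ z ∈ Z,
      Vc τ m₀ k n ((Sq I s).indicator b) (z - (2 : ℝ) ^ k • P) = 0) :
    ∑' k : ℤ, ∫⁻ z in Z, ‖Vc τ m₀ k n b (z - (2 : ℝ) ^ k • P)‖ₑ ≤
      ENNReal.ofReal (40 * ((m₀ + n) * (τ n - τ (n + 1)) + (2⁻¹ : ℝ) ^ (m₀ + n))) * ∫⁻ z, ‖b z‖ₑ := by
  classical
  have hbr := hEB.2.2.1
  calc ∑' k : ℤ, ∫⁻ z in Z, ‖Vc τ m₀ k n b (z - (2 : ℝ) ^ k • P)‖ₑ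
      ≤ ∑' k : ℤ, ∑' s : I, (if s.1.1 < k then ∫⁻ z, ‖Vc τ m₀ k n ((Sq I s).indicator b) z‖ₑ else 0) :=
        ENNReal.tsum_le_tsum fun k => bad_k hEB hRHO hτ hD b hb hae k n P Z hZm (fun s => hZ s k)
    _ = ∑' s : I, ∑' k : ℤ, (if s.1.1 < k then ∫⁻ z, ‖Vc τ m₀ k n ((Sq I s).indicator b) z‖ₑ else 0) :=
        ENNReal.tsum_comm
    _ ≤ ∑' s : I, ENNReal.ofReal (40 * ((m₀ + n) * (τ n - τ (n + 1)) + (2⁻¹ : ℝ) ^ (m₀ + n))) *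
          ∫⁻ z, ‖(Sq I s).indicator b z‖ₑ := by
        refine ENNReal.tsum_le_tsum fun s => ?_
        exact (hBAD τ m₀ hτ n s.1.1 s.1.2.1 s.1.2.2 ((Sq I s).indicator b) (hbr b _ hb (meas_Sq s))
          (fun z hz => indicator_of_notMem hz _) (h0 s)).2
    _ = ENNReal.ofReal (40 * ((m₀ + n) * (τ n - τ (n + 1)) + (2⁻¹ : ℝ) ^ (m₀ + n))) *
          ∑' s : I, ∫⁻ z in Sq I s, ‖b z‖ₑ := by
        rw [ENNReal.tsum_mul_left]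
        congr 2
        funext s
        exact lint_ind _ (meas_Sq s) b
    _ ≤ _ := by
        refine mul_le_mul_right ?_ _
        rw [← lintegral_iUnion (fun s : I => meas_Sq s) hD.disj]
        exact setLIntegral_le_lintegral _ _

/-- The enlarged square. -/
def Qe (ϖ : ℝ) (I : Set (ℤ × ℤ × ℤ)) (s : I) : Set (ℝ × ℝ) :=
  Icc ((2 : ℝ) ^ s.1.1 * s.1.2.1 - (8 + ϖ) * (2 : ℝ) ^ s.1.1) ((2 : ℝ) ^ s.1.1 * s.1.2.1 + (8 + ϖ) * (2 : ℝ) ^ s.1.1) ×ˢ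
  Icc ((2 : ℝ) ^ s.1.1 * s.1.2.2 - (8 + ϖ) * (2 : ℝ) ^ s.1.1) ((2 : ℝ) ^ s.1.1 * s.1.2.2 + (8 + ϖ) * (2 : ℝ) ^ s.1.1)

theorem meas_Qe (ϖ : ℝ) (s : I) : MeasurableSet (Qe ϖ I s) := measurableSet_Icc.prod measurableSet_Icc

theorem vol_Qe (ϖ : ℝ) (h : 0 < ϖ) (s : I) : volume (Qe ϖ I s) = ENNReal.ofReal (4 * (8 + ϖ) ^ 2) * ENNReal.ofReal ((4 : ℝ) ^ s.1.1) := by
  rw [Qe, Measure.volume_eq_prod, Measure.prod_prod, Real.volume_Icc, Real.volume_Icc,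
    ← ENNReal.ofReal_mul (by ring_nf; positivity), ← ENNReal.ofReal_mul (by positivity)]
  congr 1
  have h2 : ((2 : ℝ) ^ s.1.1) ^ 2 = (4 : ℝ) ^ s.1.1 := by
    rw [← zpow_natCast, ← zpow_mul, mul_comm, zpow_mul]
    norm_num
  rw [← h2]
  ring

/-- The exceptional set. -/
theorem vol_exc (hD : Dat F lam I) (ϖ : ℝ) (h : 0 < ϖ) :
    volume (⋃ s : I, Qe ϖ I s) ≤ ENNReal.ofReal (4 * (8 + ϖ) ^ 2 * lam⁻¹) * ∫⁻ z, ENNReal.ofReal (F z) := by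
  calc volume (⋃ s : I, Qe ϖ I s) ≤ ∑' s : I, volume (Qe ϖ I s) := measure_iUnion_le _
    _ = ENNReal.ofReal (4 * (8 + ϖ) ^ 2) * ∑' s : I, ENNReal.ofReal ((4 : ℝ) ^ s.1.1) := by
        simp only [vol_Qe ϖ h]
        rw [ENNReal.tsum_mul_left]
    _ ≤ ENNReal.ofReal (4 * (8 + ϖ) ^ 2) * (ENNReal.ofReal lam⁻¹ * ∫⁻ z, ENNReal.ofReal (F z)) :=
        mul_le_mul_right hD.sum_vol _
    _ = _ := by rw [← mul_assoc, ← ENNReal.ofReal_mul (by positivity)]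

/-- Off the exceptional set the low operators vanish. -/
theorem off_exc (hEB : StEB) (hBAD : StBAD) (hτ : Seq τ m₀) (b : ℝ × ℝ → ℝ) (hb : BR b)
    (h0 : ∀ s : I, ∫ z, (Sq I s).indicator b z = 0) (n : ℕ) (ϖ : ℝ) (P : ℝ × ℝ) (hP : ‖P‖ ≤ ϖ)
    (s : I) (k : ℤ) (hk : k ≤ s.1.1) (z : ℝ × ℝ) (hz : z ∉ Qe ϖ I s) :
    Vc τ m₀ k n ((Sq I s).indicator b) (z - (2 : ℝ) ^ k • P) = 0 := by
  by_contra hne
  apply hz
  have h1 := (hBAD τ m₀ hτ n s.1.1 s.1.2.1 s.1.2.2 ((Sq I s).indicator b) (hEB.2.2.1 b _ hb (meas_Sq s))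
    (fun z hz => indicator_of_notMem hz _) (h0 s)).1 k hk _ hne
  have h2 : (2 : ℝ) ^ k ≤ (2 : ℝ) ^ s.1.1 := zpow_le_zpow_right₀ (by norm_num) hk
  have h3 : (0 : ℝ) < (2 : ℝ) ^ k := by positivity
  have hP1 : |P.1| ≤ ϖ := (norm_fst_le P).trans hP
  have hP2 : |P.2| ≤ ϖ := (norm_snd_le P).trans hP
  have hϖ : 0 ≤ ϖ := (norm_nonneg P).trans hP
  rw [Prod.fst_sub, Prod.snd_sub, Prod.smul_fst, Prod.smul_snd, smul_eq_mul, smul_eq_mul, abs_le, abs_le] at h1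
  rw [abs_le] at hP1 hP2
  have a1 : (2 : ℝ) ^ k * P.1 ≤ ϖ * (2 : ℝ) ^ s.1.1 := by nlinarith
  have a2 : -(ϖ * (2 : ℝ) ^ s.1.1) ≤ (2 : ℝ) ^ k * P.1 := by nlinarith
  have a3 : (2 : ℝ) ^ k * P.2 ≤ ϖ * (2 : ℝ) ^ s.1.1 := by nlinarith
  have a4 : -(ϖ * (2 : ℝ) ^ s.1.1) ≤ (2 : ℝ) ^ k * P.2 := by nlinarith
  rw [Qe, mem_prod, mem_Icc, mem_Icc]
  refine ⟨⟨?_, ?_⟩, ?_, ?_⟩
  · linarith [h1.1.1]
  · linarith [h1.1.2]
  · linarith [h1.2.1]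
  · linarith [h1.2.2]

end Bad

end Pool.Agent.Helper33.LM2
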