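import Pool.Agent.Helper33.LM2.FAR2

/-!
# Project LM2, module FAR, part 3: numbers and the good part
-/

set_option autoImplicit false

open MeasureTheory Set Filter Topology
open scoped ENNReal RealInnerProductSpace

namespace Pool.Agent.Helper33.LM2

open Pool.Agent.Helper68.LM2 Pool.Agent.Helper68.LM

/-- the ratio -/
theorem q_lt (ε : ℝ) (hε : 0 < ε) : 0 < (2 : ℝ) ^ (-ε) ∧ (2 : ℝ) ^ (-ε) < 1 :=
  ⟨by positivity, Real.rpow_lt_one_of_one_lt_of_neg (by norm_num) (by linarith)⟩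

theorem geo_aux (ε : ℝ) (hε : 0 < ε) (R : ℕ) : ∀ t : ℝ, 0 < t →
    ∑ r ∈ Finset.range R, (if (2⁻¹ : ℝ) ^ r < t then ((2 : ℝ) ^ r * t) ^ (-ε) else 0) ≤
      (if 1 < t then t ^ (-ε) else 1) / (1 - (2 : ℝ) ^ (-ε)) := by
  obtain ⟨hq0, hq1⟩ := q_lt ε hε
  have hd : 0 < 1 - (2 : ℝ) ^ (-ε) := by linarith
  induction R with
  | zero =>
    intro t ht
    rw [Finset.range_zero, Finset.sum_empty]
    split_ifs <;> positivity
  | succ R ih =>
    intro t ht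
    rw [Finset.sum_range_succ']
    have h1 := ih (2 * t) (by linarith)
    have h2 : ∑ r ∈ Finset.range R, (if (2⁻¹ : ℝ) ^ (r + 1) < t then ((2 : ℝ) ^ (r + 1) * t) ^ (-ε) else 0) =
        ∑ r ∈ Finset.range R, (if (2⁻¹ : ℝ) ^ r < 2 * t then ((2 : ℝ) ^ r * (2 * t)) ^ (-ε) else 0) := by
      refine Finset.sum_congr rfl fun r _ => ?_
      have e1 : (2⁻¹ : ℝ) ^ (r + 1) < t ↔ (2⁻¹ : ℝ) ^ r < 2 * t := by
        rw [pow_succ]
        constructor <;> intro h <;> linarith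
      have e2 : (2 : ℝ) ^ (r + 1) * t = (2 : ℝ) ^ r * (2 * t) := by rw [pow_succ]; ring
      simp only [e1, e2]
    rw [h2, pow_zero, pow_zero, one_mul]
    by_cases h3 : 1 < t
    · rw [if_pos h3, if_pos h3]
      rw [if_pos (by linarith : 1 < 2 * t), Real.mul_rpow (by norm_num) ht.le] at h1
      have h4 : t ^ (-ε) / (1 - (2 : ℝ) ^ (-ε)) = 2 ^ (-ε) * t ^ (-ε) / (1 - (2 : ℝ) ^ (-ε)) + t ^ (-ε) := by
        field_simp
        ring
      rw [h4]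
      linarith
    · rw [if_neg h3, if_neg h3, add_zero]
      refine h1.trans ?_
      rw [div_le_div_iff_of_pos_right hd]
      split_ifs with h5
      · exact Real.rpow_le_one_of_one_le_of_nonpos h5.le (by linarith)
      · exact le_rfl

theorem geo (ε : ℝ) (hε : 0 < ε) (R : ℕ) (t : ℝ) (ht : 0 < t) :
    ∑ r ∈ Finset.range R, (if (2⁻¹ : ℝ) ^ r < t then ((2 : ℝ) ^ r * t) ^ (-ε) else 0) ≤
      1 / (1 - (2 : ℝ) ^ (-ε)) := by
  obtain ⟨hq0, hq1⟩ := q_lt ε hε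
  have hd : 0 < 1 - (2 : ℝ) ^ (-ε) := by linarith
  refine (geo_aux ε hε R t ht).trans ?_
  rw [div_le_div_iff_of_pos_right hd]
  split_ifs with h5
  · exact Real.rpow_le_one_of_one_le_of_nonpos h5.le (by linarith)
  · exact le_rfl

variable {τ : ℕ → ℝ} {m₀ : ℕ}

theorem mem_farS {Nm r n : ℕ} : n ∈ farS τ Nm r ↔ n < Nm ∧ (2⁻¹ : ℝ) ^ r < τ n := by
  simp [farS]

theorem farS_zero (hτ : Seq τ m₀) (Nm : ℕ) : farS τ Nm 0 = ∅ := by
  ext n
  rw [mem_farS, pow_zero]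
  constructor
  · rintro ⟨-, h⟩
    have h1 := hτ.1.antitone (Nat.zero_le n)
    have h2 := hτ.2.2.1
    linarith
  · intro h; simp at h

theorem gap_pos (hτ : Seq τ m₀) (n : ℕ) : 0 < τ n - τ (n + 1) := by linarith [hτ.1 (Nat.lt_succ_self n)]

theorem wt_nonneg (hτ : Seq τ m₀) (S : Finset ℕ) (j : ℕ) : 0 ≤ wt τ S j :=
  Finset.sum_nonneg fun n _ => by linarith [gap_pos hτ n]

theorem wt_le (hτ : Seq τ m₀) (Nm r j : ℕ) :
    wt τ (farS τ Nm r) j ≤ if (2⁻¹ : ℝ) ^ r < τ j then 2 * τ j else 0 := by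
  split_ifs with h
  · by_cases hj : j ≤ Nm
    · have h1 : wt τ (farS τ Nm r) j ≤ ∑ n ∈ Finset.Ico j Nm, 2 * (τ n - τ (n + 1)) := by
        unfold wt
        refine Finset.sum_le_sum_of_subset_of_nonneg ?_ (fun n _ _ => by linarith [gap_pos hτ n])
        intro n hn
        rw [Finset.mem_filter, mem_farS] at hn
        rw [Finset.mem_Ico]
        exact ⟨hn.2, hn.1.1⟩
      refine h1.trans ?_
      rw [← Finset.mul_sum]
      have h2 : ∑ n ∈ Finset.Ico j Nm, (τ n - τ (n + 1)) = τ j - τ Nm := by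
        have h3 := Finset.sum_Ico_sub (fun n => -τ n) hj
        have h4 : ∑ n ∈ Finset.Ico j Nm, (τ n - τ (n + 1)) = ∑ n ∈ Finset.Ico j Nm, (-τ (n + 1) - -τ n) :=
          Finset.sum_congr rfl fun n _ => by ring
        rw [h4, h3]; ring
      rw [h2]
      linarith [hτ.2.1 Nm]
    · have h1 : (farS τ Nm r).filter (fun n => j ≤ n) = ∅ := by
        rw [Finset.filter_eq_empty_iff]
        intro n hn hjn
        rw [mem_farS] at hn
        omega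
      unfold wt
      rw [h1, Finset.sum_empty]
      linarith [hτ.2.1 j]
  · have h1 : (farS τ Nm r).filter (fun n => j ≤ n) = ∅ := by
      rw [Finset.filter_eq_empty_iff]
      intro n hn hjn
      rw [mem_farS] at hn
      have := hτ.1.antitone hjn
      exact h (hn.2.trans_le this)
    unfold wt
    rw [h1, Finset.sum_empty]

/-- The numbers of the good part. -/
theorem num_good (hτ : Seq τ m₀) (ε : ℝ) (hε : 0 < ε) (Nm R : ℕ) (lam : ℝ) (hl : 0 < lam) (X Y : ℕ → ℝ)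
    (hX : ∀ r, 0 ≤ X r) (hXY : ∀ r, X r ≤ 4 * lam * Y r) :
    ∑ j ∈ Finset.range Nm, (∑ r ∈ Finset.range R, wt τ (farS τ Nm r) j * (2 ^ r * τ j) ^ (-ε)) *
        ∑ r ∈ Finset.range R, wt τ (farS τ Nm r) j * ((2 ^ r * τ j) ^ (-ε))⁻¹ * X r ≤
      16 * (1 / (1 - (2 : ℝ) ^ (-ε))) * lam *
        ∑ r ∈ Finset.range R, (∑ j ∈ farS τ Nm r, τ j ^ 2 * (2 ^ r * τ j) ^ ε) * Y r := by
  obtain ⟨hq0, hq1⟩ := q_lt ε hε
  have hd : 0 < 1 - (2 : ℝ) ^ (-ε) := by linarith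
  have hY : ∀ r, 0 ≤ Y r := fun r => by
    have h1 := (hX r).trans (hXY r)
    by_contra hneg
    push Not at hneg
    nlinarith
  have h1 : ∀ j, ∑ r ∈ Finset.range R, wt τ (farS τ Nm r) j * (2 ^ r * τ j) ^ (-ε) ≤
      2 * τ j * (1 / (1 - (2 : ℝ) ^ (-ε))) := by
    intro j
    have hj := hτ.2.1 j
    calc ∑ r ∈ Finset.range R, wt τ (farS τ Nm r) j * (2 ^ r * τ j) ^ (-ε)
        ≤ ∑ r ∈ Finset.range R, 2 * τ j * (if (2⁻¹ : ℝ) ^ r < τ j then ((2 : ℝ) ^ r * τ j) ^ (-ε) else 0) := by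
          refine Finset.sum_le_sum fun r _ => ?_
          have h2 := wt_le hτ Nm r j
          have h3 : 0 < ((2 : ℝ) ^ r * τ j) ^ (-ε) := by positivity
          split_ifs at h2 ⊢ with h
          · exact mul_le_mul_of_nonneg_right h2 h3.le
          · rw [mul_zero]
            exact mul_nonpos_of_nonpos_of_nonneg h2 h3.le
      _ = 2 * τ j * ∑ r ∈ Finset.range R, (if (2⁻¹ : ℝ) ^ r < τ j then ((2 : ℝ) ^ r * τ j) ^ (-ε) else 0) := by
          rw [Finset.mul_sum]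
      _ ≤ _ := mul_le_mul_of_nonneg_left (geo ε hε R (τ j) hj) (by linarith)
  have h2 : ∀ j, ∑ r ∈ Finset.range R, wt τ (farS τ Nm r) j * ((2 ^ r * τ j) ^ (-ε))⁻¹ * X r ≤
      ∑ r ∈ Finset.range R, (if (2⁻¹ : ℝ) ^ r < τ j then 8 * lam * (τ j * (2 ^ r * τ j) ^ ε * Y r) else 0) := by
    intro j
    have hj := hτ.2.1 j
    refine Finset.sum_le_sum fun r _ => ?_
    have h3 := wt_le hτ Nm r j
    have h4 : (((2 : ℝ) ^ r * τ j) ^ (-ε))⁻¹ = ((2 : ℝ) ^ r * τ j) ^ ε := by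
      rw [Real.rpow_neg (by positivity), inv_inv]
    have h5 : 0 < ((2 : ℝ) ^ r * τ j) ^ ε := by positivity
    rw [h4]
    have h6 := hX r
    split_ifs at h3 ⊢ with h
    · calc wt τ (farS τ Nm r) j * (2 ^ r * τ j) ^ ε * X r
          ≤ 2 * τ j * (2 ^ r * τ j) ^ ε * X r :=
            mul_le_mul_of_nonneg_right (mul_le_mul_of_nonneg_right h3 h5.le) h6
        _ ≤ 2 * τ j * (2 ^ r * τ j) ^ ε * (4 * lam * Y r) :=
            mul_le_mul_of_nonneg_left (hXY r) (by positivity)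
        _ = _ := by ring
    · exact mul_nonpos_of_nonpos_of_nonneg (mul_nonpos_of_nonpos_of_nonneg h3 h5.le) h6
  calc ∑ j ∈ Finset.range Nm, (∑ r ∈ Finset.range R, wt τ (farS τ Nm r) j * (2 ^ r * τ j) ^ (-ε)) *
        ∑ r ∈ Finset.range R, wt τ (farS τ Nm r) j * ((2 ^ r * τ j) ^ (-ε))⁻¹ * X r
      ≤ ∑ j ∈ Finset.range Nm, (2 * τ j * (1 / (1 - (2 : ℝ) ^ (-ε)))) *
        ∑ r ∈ Finset.range R, (if (2⁻¹ : ℝ) ^ r < τ j then 8 * lam * (τ j * (2 ^ r * τ j) ^ ε * Y r) else 0) := by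
        refine Finset.sum_le_sum fun j _ => ?_
        have hj := hτ.2.1 j
        refine mul_le_mul (h1 j) (h2 j) ?_ (by positivity)
        refine Finset.sum_nonneg fun r _ => ?_
        exact mul_nonneg (mul_nonneg (wt_nonneg hτ _ _) (by positivity)) (hX r)
    _ = ∑ r ∈ Finset.range R, ∑ j ∈ Finset.range Nm, (if (2⁻¹ : ℝ) ^ r < τ j then
          16 * (1 / (1 - (2 : ℝ) ^ (-ε))) * lam * (τ j ^ 2 * (2 ^ r * τ j) ^ ε * Y r) else 0) := by
        rw [Finset.sum_comm]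
        refine Finset.sum_congr rfl fun j _ => ?_
        rw [Finset.mul_sum]
        refine Finset.sum_congr rfl fun r _ => ?_
        split_ifs
        · ring
        · simp
    _ = _ := by
        rw [Finset.mul_sum]
        refine Finset.sum_congr rfl fun r _ => ?_
        rw [← Finset.sum_filter, Finset.sum_mul, Finset.mul_sum]
        have h3 : (Finset.range Nm).filter (fun j => (2⁻¹ : ℝ) ^ r < τ j) = farS τ Nm r := by
          ext j; rw [mem_farS, Finset.mem_filter, Finset.mem_range]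
        rw [h3]

/-- The good part. -/
theorem good_part (hEB : StEB) (hRHO : StRHO) (hLL : StLL) (hτ : Seq τ m₀) (ε : ℝ) (hε : 0 < ε) (Nm R : ℕ) (lam : ℝ)
    (hl : 0 < lam) (P : ℝ × ℝ) (G : ℕ → ℝ × ℝ → ℝ) (hG : ∀ r, BR (G r)) (hG4 : ∀ r z, 0 ≤ G r z ∧ G r z ≤ 4 * lam)
    (Y : ℕ → ℝ) (hY : ∀ r, ∫ z, G r z ≤ Y r) :
    volume {z : ℝ × ℝ | ∃ k : ℤ, lam < |∑ r ∈ Finset.range R, ∑ n ∈ farS τ Nm r,
      Vc τ m₀ k n (G r) (z - (2 : ℝ) ^ k • P)|} ≤
    ENNReal.ofReal (16 * (1 / (1 - (2 : ℝ) ^ (-ε))) * lam⁻¹ *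
      ∑ r ∈ Finset.range R, (∑ j ∈ farS τ Nm r, τ j ^ 2 * (2 ^ r * τ j) ^ ε) * Y r) := by
  obtain ⟨-, -, -, -, -, -, -, h8, -, -⟩ := hRHO τ m₀ hτ
  obtain ⟨U, hU⟩ : ∃ U : ℤ → ℝ × ℝ → ℝ, U = fun k z => ∑ r ∈ Finset.range R, ∑ n ∈ farS τ Nm r,
    Vc τ m₀ k n (G r) z := ⟨_, rfl⟩
  have hUm : ∀ k, Measurable (U k) := by
    intro k; rw [hU]
    exact Finset.measurable_fun_sum _ fun r _ => Finset.measurable_fun_sum _ fun n _ => (h8 n k (G r) (hG r)).2.1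
  have h1 : {z : ℝ × ℝ | ∃ k : ℤ, lam < |∑ r ∈ Finset.range R, ∑ n ∈ farS τ Nm r,
      Vc τ m₀ k n (G r) (z - (2 : ℝ) ^ k • P)|} = ⋃ k : ℤ, {z | lam < |U k (z - (2 : ℝ) ^ k • P)|} := by
    ext z; rw [hU]; simp only [Set.mem_ofPred_eq, mem_iUnion]
  rw [h1]
  have h2 : ∀ k : ℤ, volume {z | lam < |U k (z - (2 : ℝ) ^ k • P)|} ≤
      (∫⁻ z, ‖U k z‖ₑ ^ 2) / ENNReal.ofReal (lam ^ 2) := by
    intro k
    have h3 := meas_ge_le_lintegral_div (μ := (volume : Measure (ℝ × ℝ)))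
      (f := fun z => ‖U k (z - (2 : ℝ) ^ k • P)‖ₑ ^ 2) (ε := ENNReal.ofReal (lam ^ 2))
      (((hUm k).comp (measurable_id.sub_const _)).enorm.pow_const 2).aemeasurable
      (by rw [Ne, ENNReal.ofReal_eq_zero, not_le]; positivity) ENNReal.ofReal_ne_top
    have h4 : ∫⁻ z, ‖U k (z - (2 : ℝ) ^ k • P)‖ₑ ^ 2 = ∫⁻ z, ‖U k z‖ₑ ^ 2 :=
      lintegral_sub_right_eq_self (fun z => ‖U k z‖ₑ ^ 2) _
    rw [h4] at h3
    refine (measure_mono fun z hz => ?_).trans h3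
    rw [Set.mem_ofPred_eq] at hz ⊢
    rw [← ofReal_norm, Real.norm_eq_abs, ← ENNReal.ofReal_pow (abs_nonneg _)]
    exact ENNReal.ofReal_le_ofReal (pow_le_pow_left₀ hl.le hz.le 2)
  have hGi : ∀ r, Integrable (G r) := fun r => (hEB.1 (G r) (hG r)).2
  have hX : ∀ r, ∫ z, G r z ^ 2 ≤ 4 * lam * Y r := by
    intro r
    calc ∫ z, G r z ^ 2 ≤ ∫ z, 4 * lam * G r z := by
          refine integral_mono_of_nonneg (ae_of_all _ fun z => sq_nonneg _) ((hGi r).const_mul _)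
            (ae_of_all _ fun z => ?_)
          have := hG4 r z
          show G r z ^ 2 ≤ 4 * lam * G r z
          nlinarith
      _ = 4 * lam * ∫ z, G r z := integral_const_mul _ _
      _ ≤ _ := mul_le_mul_of_nonneg_left (hY r) (by positivity)
  have h5 := hLL τ m₀ hτ Nm R (farS τ Nm) G (fun r j => (2 ^ r * τ j) ^ (-ε))
    (fun r n hn => Finset.mem_range.2 (mem_farS.1 hn).1) hG
    (fun r j => by have := hτ.2.1 j; positivity)
  calc volume (⋃ k : ℤ, {z | lam < |U k (z - (2 : ℝ) ^ k • P)|})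
      ≤ ∑' k : ℤ, volume {z | lam < |U k (z - (2 : ℝ) ^ k • P)|} := measure_iUnion_le _
    _ ≤ ∑' k : ℤ, (∫⁻ z, ‖U k z‖ₑ ^ 2) / ENNReal.ofReal (lam ^ 2) := ENNReal.tsum_le_tsum h2
    _ = (∑' k : ℤ, ∫⁻ z, ‖U k z‖ₑ ^ 2) * (ENNReal.ofReal (lam ^ 2))⁻¹ := by
        simp only [div_eq_mul_inv]
        rw [ENNReal.tsum_mul_right]
    _ ≤ ENNReal.ofReal (16 * (1 / (1 - (2 : ℝ) ^ (-ε))) * lam *
        ∑ r ∈ Finset.range R, (∑ j ∈ farS τ Nm r, τ j ^ 2 * (2 ^ r * τ j) ^ ε) * Y r) *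
          ENNReal.ofReal ((lam ^ 2)⁻¹) := by
        rw [ENNReal.ofReal_inv_of_pos (by positivity)]
        refine mul_le_mul_left ?_ _
        rw [hU]
        refine h5.trans (ENNReal.ofReal_le_ofReal ?_)
        exact num_good hτ ε hε Nm R lam hl (fun r => ∫ z, G r z ^ 2) Y
          (fun r => integral_nonneg fun z => sq_nonneg _) hX
    _ = _ := by
        rw [mul_comm, ← ENNReal.ofReal_mul (by positivity)]
        congr 1
        field_simp

end Pool.Agent.Helper33.LM2
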