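import Pool.Agent.Helper33.LM2.FAR3

/-!
# Project LM2, module FAR: distribution inequality, far arcs
-/

set_option autoImplicit false

open MeasureTheory Set Filter Topology
open scoped ENNReal RealInnerProductSpace

namespace Pool.Agent.Helper33.LM2

open Pool.Agent.Helper68.LM2 Pool.Agent.Helper68.LM

variable {τ : ℕ → ℝ} {m₀ : ℕ} {F : ℝ × ℝ → ℝ} {lam : ℝ} {I : Set (ℤ × ℤ × ℤ)}

/-- The bad part. -/
theorem bad_part (hEB : StEB) (hRHO : StRHO) (hBAD : StBAD) (hτ : Seq τ m₀) (hD : Dat F lam I) (Nm R : ℕ)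
    (ϖ : ℝ) (P : ℝ × ℝ) (hP : ‖P‖ ≤ ϖ) (b : ℕ → ℝ × ℝ → ℝ) (hb : ∀ r, BR (b r))
    (hae : ∀ r, ∀ᵐ z, (∀ s : I, z ∉ Sq I s) → b r z = 0)
    (h0 : ∀ r, ∀ s : I, ∫ z, (Sq I s).indicator (b r) z = 0) (Y : ℕ → ℝ≥0∞) (hY : ∀ r, ∫⁻ z, ‖b r z‖ₑ ≤ 2 * Y r) :
    volume {z : ℝ × ℝ | z ∉ (⋃ s : I, Qe ϖ I s) ∧ ∃ k : ℤ, lam < |∑ r ∈ Finset.range R, ∑ n ∈ farS τ Nm r,
      Vc τ m₀ k n (b r) (z - (2 : ℝ) ^ k • P)|} ≤
    ∑ r ∈ Finset.range R, ENNReal.ofReal (80 * lam⁻¹ *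
      (∑ n ∈ farS τ Nm r, ((m₀ + n) * (τ n - τ (n + 1)) + (2⁻¹ : ℝ) ^ (m₀ + n)))) * Y r := by
  obtain ⟨-, -, -, -, -, -, -, h8, -, -⟩ := hRHO τ m₀ hτ
  obtain ⟨Z, hZ⟩ : ∃ Z : Set (ℝ × ℝ), Z = (⋃ s : I, Qe ϖ I s)ᶜ := ⟨_, rfl⟩
  have hZm : MeasurableSet Z := by rw [hZ]; exact (MeasurableSet.iUnion fun s => meas_Qe ϖ s).compl
  have hZ0 : ∀ (r n : ℕ) (s : I) (k : ℤ), k ≤ s.1.1 → ∀ z ∈ Z,
      Vc τ m₀ k n ((Sq I s).indicator (b r)) (z - (2 : ℝ) ^ k • P) = 0 := by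
    intro r n s k hk z hz
    refine off_exc hEB hBAD hτ (b r) (hb r) (h0 r) n ϖ P hP s k hk z fun hzs => ?_
    rw [hZ] at hz
    exact hz (mem_iUnion.2 ⟨s, hzs⟩)
  have hm : ∀ (r n : ℕ) (k : ℤ), Measurable (fun z => ‖Vc τ m₀ k n (b r) (z - (2 : ℝ) ^ k • P)‖ₑ) := by
    intro r n k
    exact ((h8 n k (b r) (hb r)).2.1.comp (measurable_id.sub_const _)).enorm
  obtain ⟨H, hH⟩ : ∃ H : ℝ × ℝ → ℝ≥0∞, H = fun z => ∑ r ∈ Finset.range R, ∑ n ∈ farS τ Nm r,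
    ∑' k : ℤ, ‖Vc τ m₀ k n (b r) (z - (2 : ℝ) ^ k • P)‖ₑ := ⟨_, rfl⟩
  have hHm1 : ∀ r n : ℕ, Measurable (fun z => ∑' k : ℤ, ‖Vc τ m₀ k n (b r) (z - (2 : ℝ) ^ k • P)‖ₑ) :=
    fun r n => Measurable.tsum fun k => hm r n k
  have hHm : Measurable H := by
    rw [hH]
    exact Finset.measurable_fun_sum _ fun r _ => Finset.measurable_fun_sum _ fun n _ => hHm1 r n
  have h1 : volume {z : ℝ × ℝ | z ∉ (⋃ s : I, Qe ϖ I s) ∧ ∃ k : ℤ, lam < |∑ r ∈ Finset.range R, ∑ n ∈ farS τ Nm r,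
      Vc τ m₀ k n (b r) (z - (2 : ℝ) ^ k • P)|} ≤ (volume.restrict Z) {z | ENNReal.ofReal lam ≤ H z} := by
    refine (measure_mono ?_).trans (Measure.le_restrict_apply Z {z | ENNReal.ofReal lam ≤ H z})
    rintro z ⟨hz1, k, hk⟩
    refine ⟨?_, by rw [hZ]; exact hz1⟩
    rw [Set.mem_ofPred_eq, hH]
    dsimp only
    calc ENNReal.ofReal lam ≤ ENNReal.ofReal |∑ r ∈ Finset.range R, ∑ n ∈ farS τ Nm r,
          Vc τ m₀ k n (b r) (z - (2 : ℝ) ^ k • P)| := ENNReal.ofReal_le_ofReal hk.le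
      _ = ‖∑ r ∈ Finset.range R, ∑ n ∈ farS τ Nm r, Vc τ m₀ k n (b r) (z - (2 : ℝ) ^ k • P)‖ₑ := by
          rw [← ofReal_norm, Real.norm_eq_abs]
      _ ≤ ∑ r ∈ Finset.range R, ∑ n ∈ farS τ Nm r, ‖Vc τ m₀ k n (b r) (z - (2 : ℝ) ^ k • P)‖ₑ :=
          (enorm_sum_le _ _).trans (Finset.sum_le_sum fun r _ => enorm_sum_le _ _)
      _ ≤ _ := Finset.sum_le_sum fun r _ => Finset.sum_le_sum fun n _ =>
          ENNReal.le_tsum (f := fun k : ℤ => ‖Vc τ m₀ k n (b r) (z - (2 : ℝ) ^ k • P)‖ₑ) k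
  have h2 := meas_ge_le_lintegral_div (μ := volume.restrict Z) (f := H) (ε := ENNReal.ofReal lam)
    hHm.aemeasurable (by rw [Ne, ENNReal.ofReal_eq_zero, not_le]; exact hD.lp) ENNReal.ofReal_ne_top
  have h3 : ∫⁻ z in Z, H z = ∑ r ∈ Finset.range R, ∑ n ∈ farS τ Nm r,
      ∑' k : ℤ, ∫⁻ z in Z, ‖Vc τ m₀ k n (b r) (z - (2 : ℝ) ^ k • P)‖ₑ := by
    rw [hH]
    rw [lintegral_finsetSum _ (fun r _ => Finset.measurable_fun_sum _ fun n _ => hHm1 r n)]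
    refine Finset.sum_congr rfl fun r _ => ?_
    rw [lintegral_finsetSum _ (fun n _ => hHm1 r n)]
    refine Finset.sum_congr rfl fun n _ => ?_
    exact lintegral_tsum fun k => (hm r n k).aemeasurable
  have hpos : ∀ n : ℕ, 0 ≤ (m₀ + n) * (τ n - τ (n + 1)) + (2⁻¹ : ℝ) ^ (m₀ + n) := fun n => by
    have := gap_pos hτ n
    positivity
  have h4 : ∀ r, ∑ n ∈ farS τ Nm r, ∑' k : ℤ, ∫⁻ z in Z, ‖Vc τ m₀ k n (b r) (z - (2 : ℝ) ^ k • P)‖ₑ ≤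
      ENNReal.ofReal (80 * (∑ n ∈ farS τ Nm r, ((m₀ + n) * (τ n - τ (n + 1)) + (2⁻¹ : ℝ) ^ (m₀ + n)))) * Y r := by
    intro r
    rw [Finset.mul_sum, ENNReal.ofReal_sum_of_nonneg (fun n _ => by have := hpos n; positivity), Finset.sum_mul]
    refine Finset.sum_le_sum fun n _ => ?_
    refine (bad_all hEB hRHO hBAD hτ hD (b r) (hb r) (hae r) (h0 r) n P Z hZm (hZ0 r n)).trans ?_
    refine (mul_le_mul_right (hY r) _).trans ?_
    have h5 : ENNReal.ofReal (80 * ((m₀ + n) * (τ n - τ (n + 1)) + (2⁻¹ : ℝ) ^ (m₀ + n))) =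
        ENNReal.ofReal (40 * ((m₀ + n) * (τ n - τ (n + 1)) + (2⁻¹ : ℝ) ^ (m₀ + n))) * 2 := by
      rw [show (80 : ℝ) * ((m₀ + n) * (τ n - τ (n + 1)) + (2⁻¹ : ℝ) ^ (m₀ + n)) =
        (40 * ((m₀ + n) * (τ n - τ (n + 1)) + (2⁻¹ : ℝ) ^ (m₀ + n))) * 2 by ring,
        ENNReal.ofReal_mul (q := 2) (by have := hpos n; positivity)]
      norm_num
    rw [h5, mul_assoc]
  refine h1.trans (h2.trans ?_)
  rw [h3, div_eq_mul_inv, ← ENNReal.ofReal_inv_of_pos hD.lp, Finset.sum_mul]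
  refine Finset.sum_le_sum fun r _ => ?_
  refine (mul_le_mul_left (h4 r) _).trans ?_
  rw [mul_assoc, mul_comm (Y r), ← mul_assoc, ← ENNReal.ofReal_mul
    (mul_nonneg (by norm_num) (Finset.sum_nonneg fun n _ => hpos n))]
  refine le_of_eq ?_
  congr 2
  ring

/-- Level sets. -/
theorem Lv_eq (g : ℝ × ℝ → ℝ) (lam : ℝ) (r : ℕ) :
    Lv g lam r = {z | g z ≤ 2 ^ r * lam ∧ (r ≠ 0 → 2 ^ r * lam / 2 < g z)}.indicator g := by
  classical
  funext z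
  unfold Lv
  by_cases h : g z ≤ 2 ^ r * lam ∧ (r ≠ 0 → 2 ^ r * lam / 2 < g z)
  · rw [if_pos h, indicator_of_mem (show z ∈ {z | g z ≤ 2 ^ r * lam ∧ (r ≠ 0 → 2 ^ r * lam / 2 < g z)} from h)]
  · rw [if_neg h, indicator_of_notMem (show z ∉ {z | g z ≤ 2 ^ r * lam ∧ (r ≠ 0 → 2 ^ r * lam / 2 < g z)} from h)]

theorem br_Lv (hEB : StEB) (g : ℝ × ℝ → ℝ) (hg : BR g) (lam : ℝ) (r : ℕ) : BR (Lv g lam r) := by
  rw [Lv_eq]
  refine hEB.2.2.1 g _ hg ?_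
  by_cases hr : r = 0
  · subst hr
    simp only [ne_eq, not_true_eq_false, false_imp_iff, and_true]
    exact measurableSet_le hg.1 measurable_const
  · simp only [ne_eq, hr, not_false_eq_true, true_imp_iff]
    exact (measurableSet_le hg.1 measurable_const).inter (measurableSet_lt measurable_const hg.1)

/-- MODULE FAR. -/
theorem hFAR (hEB : StEB) (hRHO : StRHO) (hLL : StLL) (hCZS : StCZS) (hBAD : StBAD) : StFAR := by
  classical
  intro ϖ ε hϖ hε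
  obtain ⟨hq0, hq1⟩ := q_lt ε hε
  have hd : 0 < 1 - (2 : ℝ) ^ (-ε) := by linarith
  obtain ⟨C1, hC1⟩ : ∃ C1 : ℝ, C1 = 16 * (1 / (1 - (2 : ℝ) ^ (-ε))) := ⟨_, rfl⟩
  have hC1p : 0 < C1 := by rw [hC1]; positivity
  refine ⟨4 * (8 + ϖ) ^ 2 + 80 + C1, by positivity, ?_⟩
  intro τ m₀ hτ Nm R g lam P hg hg0 hl hgR hP
  have hEB' := hEB
  obtain ⟨e1, e2, e3, -⟩ := hEB'
  have hRHO' := hRHO τ m₀ hτ
  obtain ⟨-, -, -, -, -, -, -, h8, h9, -⟩ := hRHO'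
  -- the function F
  obtain ⟨F, hF⟩ : ∃ F : ℝ × ℝ → ℝ, F = {z | lam < g z}.indicator g := ⟨_, rfl⟩
  have hSm : MeasurableSet {z | lam < g z} := measurableSet_lt measurable_const hg.1
  have hFB : BR F := by rw [hF]; exact e3 g _ hg hSm
  have hF1 : ∀ z, lam < g z → F z = g z := fun z hz => by rw [hF]; exact indicator_of_mem (by exact hz) _
  have hF2 : ∀ z, ¬ lam < g z → F z = 0 := fun z hz => by rw [hF]; exact indicator_of_notMem (by exact hz) _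
  have hF0 : ∀ z, 0 ≤ F z := by
    intro z
    by_cases hz : lam < g z
    · rw [hF1 z hz]; exact hg0 z
    · rw [hF2 z hz]
  obtain ⟨I, hI1, hI2, hI3⟩ := hCZS F hFB hF0 lam hl
  have hD : Dat F lam I := ⟨hFB, (e1 F hFB).2, hF0, hl, hI1, fun s hs => (hI2 s hs).1, fun s hs => (hI2 s hs).2, hI3⟩
  -- the functions f r
  obtain ⟨f, hf⟩ : ∃ f : ℕ → ℝ × ℝ → ℝ, f = fun r => if r = 0 then (fun _ => 0) else Lv g lam r := ⟨_, rfl⟩
  have hfz : f 0 = fun _ => 0 := by rw [hf]; simp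
  have hfr : ∀ r, r ≠ 0 → f r = Lv g lam r := fun r hr => by rw [hf]; simp [hr]
  have hfB : ∀ r, BR (f r) := by
    intro r
    by_cases hr : r = 0
    · subst hr; rw [hfz]; exact br_zero
    · rw [hfr r hr]; exact br_Lv hEB g hg lam r
  have hfLv : ∀ r z, r ≠ 0 → (f r z = 0 ∨ (f r z = g z ∧ lam < g z)) := by
    intro r z hr
    rw [hfr r hr]
    unfold Lv
    split_ifs with h
    · right
      refine ⟨rfl, ?_⟩
      have h1 := h.2 hr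
      have h2 : (2 : ℝ) ≤ 2 ^ r := by
        calc (2 : ℝ) = 2 ^ 1 := by norm_num
          _ ≤ 2 ^ r := pow_le_pow_right₀ (by norm_num) (by omega)
      nlinarith
    · left; rfl
  have hf0 : ∀ r z, 0 ≤ f r z := by
    intro r z
    by_cases hr : r = 0
    · subst hr; rw [hfz]
    · rcases hfLv r z hr with h | h
      · rw [h]
      · rw [h.1]; exact hg0 z
  have hfF : ∀ r z, f r z ≤ F z := by
    intro r z
    by_cases hr : r = 0
    · subst hr; rw [hfz]; exact hF0 z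
    · rcases hfLv r z hr with h | h
      · rw [h]; exact hF0 z
      · rw [h.1, hF1 z h.2]
  have hfl : ∀ r z, F z ≤ lam → f r z = 0 := by
    intro r z hz
    by_cases hr : r = 0
    · subst hr; rw [hfz]
    · rcases hfLv r z hr with h | h
      · exact h
      · exfalso
        rw [hF1 z h.2] at hz
        linarith [h.2]
  have hfi : ∀ r, Integrable (f r) := fun r => (e1 (f r) (hfB r)).2
  have hex := fun r => good hD (f r) (hfB r) (hfi r) (hf0 r) (hfF r) (hfl r)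
  choose G hGB hG4 hGl hGs hGa using hex
  obtain ⟨b, hb⟩ : ∃ b : ℕ → ℝ × ℝ → ℝ, b = fun r z => f r z - G r z := ⟨_, rfl⟩
  have hbB : ∀ r, BR (b r) := fun r => by rw [hb]; exact (e2 _ _ (hfB r) (hGB r)).2
  obtain ⟨Y, hY⟩ : ∃ Y : ℕ → ℝ≥0∞, Y = fun r => ∫⁻ z, ENNReal.ofReal (f r z) := ⟨_, rfl⟩
  obtain ⟨y, hy⟩ : ∃ y : ℕ → ℝ, y = fun r => ∫ z, f r z := ⟨_, rfl⟩
  have hyY : ∀ r, ENNReal.ofReal (y r) = Y r := by
    intro r; rw [hy, hY]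
    exact ofReal_integral_eq_lintegral_ofReal (hfi r) (ae_of_all _ (hf0 r))
  have hy0 : ∀ r, 0 ≤ y r := fun r => by rw [hy]; exact integral_nonneg (hf0 r)
  have hGy : ∀ r, ∫ z, G r z ≤ y r := by
    intro r
    have h1 := ofReal_integral_eq_lintegral_ofReal (e1 (G r) (hGB r)).2 (ae_of_all _ fun z => (hG4 r z).1)
    have h2 : ENNReal.ofReal (∫ z, G r z) ≤ ENNReal.ofReal (y r) := by
      rw [h1, hyY, hY]; exact hGl r
    exact (ENNReal.ofReal_le_ofReal_iff (hy0 r)).1 h2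
  have hbY : ∀ r, ∫⁻ z, ‖b r z‖ₑ ≤ 2 * Y r := by
    intro r
    calc ∫⁻ z, ‖b r z‖ₑ ≤ ∫⁻ z, (ENNReal.ofReal (f r z) + ENNReal.ofReal (G r z)) := by
          refine lintegral_mono fun z => ?_
          rw [hb, ← ENNReal.ofReal_add (hf0 r z) (hG4 r z).1, ← ofReal_norm]
          refine ENNReal.ofReal_le_ofReal ?_
          rw [Real.norm_eq_abs, abs_le]
          constructor <;> linarith [hf0 r z, (hG4 r z).1]
      _ = (∫⁻ z, ENNReal.ofReal (f r z)) + ∫⁻ z, ENNReal.ofReal (G r z) :=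
          lintegral_add_left (hfB r).1.ennreal_ofReal _
      _ ≤ _ := by rw [hY, two_mul]; exact add_le_add le_rfl (hGl r)
  -- decomposition of the sum
  have hdec : ∀ (k : ℤ) (z : ℝ × ℝ), ∑ r ∈ Finset.range (R + 1), ∑ n ∈ farS τ Nm r, Vc τ m₀ k n (Lv g lam r) z =
      (∑ r ∈ Finset.range (R + 1), ∑ n ∈ farS τ Nm r, Vc τ m₀ k n (b r) z) +
        ∑ r ∈ Finset.range (R + 1), ∑ n ∈ farS τ Nm r, Vc τ m₀ k n (G r) z := by
    intro k z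
    rw [← Finset.sum_add_distrib]
    refine Finset.sum_congr rfl fun r _ => ?_
    rw [← Finset.sum_add_distrib]
    refine Finset.sum_congr rfl fun n hn => ?_
    have hr : r ≠ 0 := by
      rintro rfl
      rw [farS_zero hτ] at hn
      simp at hn
    rw [← hfr r hr]
    have h1 : f r = fun w => b r w + G r w := by
      funext w; rw [hb]; ring
    conv_lhs => rw [h1]
    exact (h9 n k (b r) (G r) z (hbB r) (hGB r)).1
  have hsub : {z : ℝ × ℝ | ∃ k : ℤ, 2 * lam < |∑ r ∈ Finset.range (R + 1),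
        ∑ n ∈ farS τ Nm r, Vc τ m₀ k n (Lv g lam r) (z - (2 : ℝ) ^ k • P)|} ⊆
      (⋃ s : I, Qe ϖ I s) ∪ ({z : ℝ × ℝ | z ∉ (⋃ s : I, Qe ϖ I s) ∧ ∃ k : ℤ, lam < |∑ r ∈ Finset.range (R + 1),
        ∑ n ∈ farS τ Nm r, Vc τ m₀ k n (b r) (z - (2 : ℝ) ^ k • P)|} ∪
        {z : ℝ × ℝ | ∃ k : ℤ, lam < |∑ r ∈ Finset.range (R + 1), ∑ n ∈ farS τ Nm r,
          Vc τ m₀ k n (G r) (z - (2 : ℝ) ^ k • P)|}) := by
    rintro z ⟨k, hk⟩
    by_cases hz : z ∈ ⋃ s : I, Qe ϖ I s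
    · left; exact hz
    · right
      rw [hdec] at hk
      have h1 := abs_add_le (∑ r ∈ Finset.range (R + 1), ∑ n ∈ farS τ Nm r, Vc τ m₀ k n (b r) (z - (2 : ℝ) ^ k • P))
        (∑ r ∈ Finset.range (R + 1), ∑ n ∈ farS τ Nm r, Vc τ m₀ k n (G r) (z - (2 : ℝ) ^ k • P))
      by_cases h2 : lam < |∑ r ∈ Finset.range (R + 1), ∑ n ∈ farS τ Nm r, Vc τ m₀ k n (b r) (z - (2 : ℝ) ^ k • P)|
      · left; exact ⟨hz, k, h2⟩
      · right
        refine ⟨k, ?_⟩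
        push Not at h2
        linarith
  have hA := vol_exc hD ϖ hϖ
  have hB := bad_part hEB hRHO hBAD hτ hD Nm (R + 1) ϖ P hP b hbB
    (fun r => by rw [hb]; exact hGa r) (fun r s => by rw [hb]; exact hGs r s) Y hbY
  have hC := good_part hEB hRHO hLL hτ ε hε Nm (R + 1) lam hl P G hGB hG4 y hGy
  rw [← hC1] at hC
  -- numbers
  obtain ⟨S1, hS1⟩ : ∃ S1 : ℕ → ℝ, S1 = fun r => ∑ n ∈ farS τ Nm r, ((m₀ + n) * (τ n - τ (n + 1)) + (2⁻¹ : ℝ) ^ (m₀ + n)) :=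
    ⟨_, rfl⟩
  obtain ⟨S2, hS2⟩ : ∃ S2 : ℕ → ℝ, S2 = fun r => ∑ j ∈ farS τ Nm r, τ j ^ 2 * (2 ^ r * τ j) ^ ε := ⟨_, rfl⟩
  have hS1n : ∀ r, 0 ≤ S1 r := by
    intro r; rw [hS1]
    exact Finset.sum_nonneg fun n _ => by have := gap_pos hτ n; positivity
  have hS2n : ∀ r, 0 ≤ S2 r := by
    intro r; rw [hS2]
    exact Finset.sum_nonneg fun n _ => by have := hτ.2.1 n; positivity
  have hS10 : S1 0 = 0 := by rw [hS1]; simp [farS_zero hτ]
  have hS20 : S2 0 = 0 := by rw [hS2]; simp [farS_zero hτ]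
  have hB' : volume {z : ℝ × ℝ | z ∉ (⋃ s : I, Qe ϖ I s) ∧ ∃ k : ℤ, lam < |∑ r ∈ Finset.range (R + 1),
      ∑ n ∈ farS τ Nm r, Vc τ m₀ k n (b r) (z - (2 : ℝ) ^ k • P)|} ≤
      ∑ r ∈ Finset.range (R + 1), ENNReal.ofReal (80 * lam⁻¹ * S1 r) * Y r := by
    rw [hS1]; exact hB
  have hC' : volume {z : ℝ × ℝ | ∃ k : ℤ, lam < |∑ r ∈ Finset.range (R + 1), ∑ n ∈ farS τ Nm r,
      Vc τ m₀ k n (G r) (z - (2 : ℝ) ^ k • P)|} ≤
      ∑ r ∈ Finset.range (R + 1), ENNReal.ofReal (C1 * lam⁻¹ * S2 r) * Y r := by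
    refine hC.trans (le_of_eq ?_)
    have h1 : ∑ r ∈ Finset.range (R + 1), (∑ j ∈ farS τ Nm r, τ j ^ 2 * (2 ^ r * τ j) ^ ε) * y r =
        ∑ r ∈ Finset.range (R + 1), S2 r * y r := by rw [hS2]
    rw [h1, Finset.mul_sum, ENNReal.ofReal_sum_of_nonneg
      (fun r _ => by have := hS2n r; have := hy0 r; positivity)]
    refine Finset.sum_congr rfl fun r _ => ?_
    rw [← mul_assoc, ENNReal.ofReal_mul (by have := hS2n r; positivity), hyY]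
  have hA' : volume (⋃ s : I, Qe ϖ I s) ≤ ENNReal.ofReal ((4 * (8 + ϖ) ^ 2 + 80 + C1) * lam⁻¹) *
      ∫⁻ z in {z | lam < g z}, ENNReal.ofReal (g z) := by
    refine hA.trans ?_
    have h1 : ∫⁻ z, ENNReal.ofReal (F z) = ∫⁻ z in {z | lam < g z}, ENNReal.ofReal (g z) := by
      rw [← lintegral_indicator hSm]
      congr 1
      funext z
      by_cases hz : lam < g z
      · rw [hF1 z hz, indicator_of_mem (by exact hz)]
      · rw [hF2 z hz, indicator_of_notMem (by exact hz), ENNReal.ofReal_zero]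
    rw [h1]
    refine mul_le_mul_left (ENNReal.ofReal_le_ofReal ?_) _
    refine mul_le_mul_of_nonneg_right ?_ (by positivity)
    linarith
  refine (measure_mono hsub).trans ?_
  refine (measure_union_le _ _).trans ?_
  refine add_le_add hA' ?_
  refine (measure_union_le _ _).trans ?_
  refine (add_le_add hB' hC').trans ?_
  rw [← Finset.sum_add_distrib]
  have h1 : ∀ r, ENNReal.ofReal (80 * lam⁻¹ * S1 r) * Y r + ENNReal.ofReal (C1 * lam⁻¹ * S2 r) * Y r ≤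
      ENNReal.ofReal ((4 * (8 + ϖ) ^ 2 + 80 + C1) * lam⁻¹ * (S1 r + S2 r)) * Y r := by
    intro r
    have a1 := hS1n r
    have a2 := hS2n r
    rw [← add_mul, ← ENNReal.ofReal_add (by positivity) (by positivity)]
    refine mul_le_mul_left (ENNReal.ofReal_le_ofReal ?_) _
    have a3 : 0 < lam⁻¹ := by positivity
    have a4 : 0 ≤ lam⁻¹ * S1 r := by positivity
    have a5 : 0 ≤ lam⁻¹ * S2 r := by positivity
    have a6 : 0 ≤ (8 + ϖ) ^ 2 := by positivity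
    nlinarith [mul_nonneg a6 a4, mul_nonneg a6 a5, mul_nonneg hC1p.le a4, mul_nonneg hC1p.le a5]
  refine (Finset.sum_le_sum fun r _ => h1 r).trans ?_
  have h2 : Finset.range (R + 1) = insert 0 (Finset.Icc 1 R) := by
    ext r
    rw [Finset.mem_range, Finset.mem_insert, Finset.mem_Icc]
    omega
  rw [h2, Finset.sum_insert (by simp), hS10, hS20, add_zero, mul_zero, ENNReal.ofReal_zero, zero_mul, zero_add]
  refine Finset.sum_le_sum fun r hr => ?_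
  have hr0 : r ≠ 0 := by rw [Finset.mem_Icc] at hr; omega
  rw [hY, hS1, hS2]
  dsimp only
  rw [hfr r hr0]

end Pool.Agent.Helper33.LM2
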